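import Mathlib
import Pool.Agent.Y214.HB.Stm

set_option autoImplicit false

namespace Pool.Agent.Y945.HB

open Polynomial Filter Pool.Agent.Y214.HB

/-- clearing denominators -/
lemma clear_den {R : Type*} [CommRing R] [IsDomain R] (i : (FractionRing R)[X]) :
    ∃ (b : R) (Q : R[X]), b ≠ 0 ∧
      Q.map (algebraMap R (FractionRing R)) = C (algebraMap R (FractionRing R) b) * i := by
  obtain ⟨b, hb0, hb⟩ := IsLocalization.integerNormalization_spec (nonZeroDivisors R) i
  refine ⟨b, IsLocalization.integerNormalization (nonZeroDivisors R) i,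
    nonZeroDivisors.ne_zero hb0, ?_⟩
  rw [hb, ← smul_eq_C_mul, algebraMap_smul]

theorem t_FAC : S_FAC := by
  intro n P hP
  have hinj : Function.Injective (algebraMap (MvPolynomial (Fin (n + 1)) ℤ)
      (FractionRing (MvPolynomial (Fin (n + 1)) ℤ))) := IsFractionRing.injective _ _
  have hP0 : toK P ≠ 0 := by
    intro h
    refine hP 0 ?_
    rw [h, eval_zero]
  have main : ∀ g : (FractionRing (MvPolynomial (Fin (n + 1)) ℤ))[X], g ≠ 0 →
      (∀ r, g.eval r ≠ 0) →
      ∃ (k : ℕ) (Q : Fin k → (MvPolynomial (Fin (n + 1)) ℤ)[X])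
        (c : MvPolynomial (Fin (n + 1)) ℤ),
        C (algebraMap _ (FractionRing (MvPolynomial (Fin (n + 1)) ℤ)) c) * g =
          toK (∏ i, Q i) ∧ ∀ i, Kind (Q i) := by
    intro g
    refine WfDvdMonoid.induction_on_irreducible g ?_ ?_ ?_
    · intro h
      exact absurd rfl h
    · intro u hu _ _
      obtain ⟨r, hr, rfl⟩ := Polynomial.isUnit_iff.1 hu
      obtain ⟨s, t, ht, hst⟩ := IsFractionRing.div_surjective
        (A := MvPolynomial (Fin (n + 1)) ℤ) r
      have ht0 : algebraMap _ (FractionRing (MvPolynomial (Fin (n + 1)) ℤ)) t ≠ 0 := by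
        intro h
        exact nonZeroDivisors.ne_zero ht (hinj (h.trans (map_zero _).symm))
      refine ⟨1, fun _ => C s, t, ?_, fun _ => Or.inl ⟨s, ?_, rfl⟩⟩
      · rw [Fin.prod_univ_one, toK, Polynomial.map_C, ← C_mul, ← hst, mul_div_cancel₀ _ ht0]
      · rintro rfl
        rw [map_zero, zero_div] at hst
        exact hr.ne_zero hst.symm
    · intro a q ha hq ih h0 hr
      have hra : ∀ r, a.eval r ≠ 0 := by
        intro r h
        refine hr r ?_
        rw [eval_mul, h, mul_zero]
      have hrq : ∀ r, q.eval r ≠ 0 := by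
        intro r h
        refine hr r ?_
        rw [eval_mul, h, zero_mul]
      obtain ⟨k, Q, c, hc, hQ⟩ := ih ha hra
      obtain ⟨b, Q', hb, hQ'⟩ := clear_den q
      have hb0 : algebraMap _ (FractionRing (MvPolynomial (Fin (n + 1)) ℤ)) b ≠ 0 := by
        intro h
        exact hb (hinj (h.trans (map_zero _).symm))
      refine ⟨k + 1, Fin.cons Q' Q, b * c, ?_, ?_⟩
      · rw [Fin.prod_univ_succ]
        simp only [Fin.cons_zero, Fin.cons_succ]
        have h1 : toK (Q' * ∏ i, Q i) = toK Q' * toK (∏ i, Q i) := by
          simp only [toK, Polynomial.map_mul]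
        have h2 : toK Q' = C (algebraMap _ (FractionRing (MvPolynomial (Fin (n + 1)) ℤ)) b) * q :=
          hQ'
        rw [h1, ← hc, h2, map_mul, C_mul]
        ring
      · intro i
        refine Fin.cases ?_ (fun j => ?_) i
        · rw [Fin.cons_zero]
          right
          have hu : IsUnit (C (algebraMap _ (FractionRing (MvPolynomial (Fin (n + 1)) ℤ)) b)) :=
            Polynomial.isUnit_C.2 (isUnit_iff_ne_zero.2 hb0)
          have hdq : 2 ≤ q.natDegree := by
            have h1 : 0 < q.natDegree := hq.natDegree_pos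
            by_contra hcon
            have h2 : q.natDegree = 1 := by omega
            obtain ⟨x, hx⟩ := Polynomial.exists_root_of_degree_eq_one
              ((Polynomial.degree_eq_iff_natDegree_eq hq.ne_zero).2 h2)
            exact hrq x hx
          constructor
          · have h1 : Q'.natDegree = q.natDegree := by
              rw [← Polynomial.natDegree_map_eq_of_injective hinj Q', hQ',
                Polynomial.natDegree_C_mul hb0]
            rw [h1]
            exact hdq
          · have h2 : toK Q' =
                C (algebraMap _ (FractionRing (MvPolynomial (Fin (n + 1)) ℤ)) b) * q := hQ'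
            rw [h2, irreducible_isUnit_mul hu]
            exact hq
        · rw [Fin.cons_succ]
          exact hQ j
  obtain ⟨k, Q, c, hc, hQ⟩ := main (toK P) hP0 hP
  refine ⟨k, Q, c, ?_, hQ⟩
  apply Polynomial.map_injective _ hinj
  rw [Polynomial.map_mul, Polynomial.map_C]
  exact hc

end Pool.Agent.Y945.HB
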