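import Pool.Agent.Y453.HB.Stm

/-!
# Project HB: a cut off rotation by the angle `π`
-/

set_option autoImplicit false

open Set Filter Topology Function

namespace Pool.Agent.Y945.HB

open Pool.Agent.Y453.HB

/-- the rotation by the angle `θ` in all the coordinate planes -/
noncomputable def rt {n : ℕ} (θ : ℝ) (p : E n) : E n :=
  (Real.cos θ • p.1 + Real.sin θ • p.2, (-Real.sin θ) • p.1 + Real.cos θ • p.2)

lemma rt_rt {n : ℕ} (θ φ : ℝ) (p : E n) : rt θ (rt φ p) = rt (θ + φ) p := by
  unfold rt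
  refine Prod.ext ?_ ?_
  · funext i
    simp only [Pi.add_apply, Pi.smul_apply, smul_eq_mul, Real.cos_add, Real.sin_add]
    ring
  · funext i
    simp only [Pi.add_apply, Pi.smul_apply, smul_eq_mul, Real.cos_add, Real.sin_add]
    ring

lemma rt_zero {n : ℕ} (p : E n) : rt 0 p = p := by
  unfold rt
  simp

lemma rt_pi {n : ℕ} (p : E n) : rt Real.pi p = -p := by
  unfold rt
  refine Prod.ext ?_ ?_ <;> simp

lemma Q_rt {n : ℕ} (θ : ℝ) (p : E n) : Q (rt θ p) = Q p := by
  unfold Q rt
  refine Finset.sum_congr rfl fun i _ => ?_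
  simp only [Pi.add_apply, Pi.smul_apply, smul_eq_mul]
  linear_combination ((p.1 i) ^ 2 + (p.2 i) ^ 2) * Real.sin_sq_add_cos_sq θ

lemma Q_cont {n : ℕ} : Continuous (Q : E n → ℝ) := by
  unfold Q
  fun_prop

lemma rt_cont {n : ℕ} {α : Type} [TopologicalSpace α] {θ : α → ℝ} {p : α → E n}
    (hθ : Continuous θ) (hp : Continuous p) : Continuous fun x => rt (θ x) (p x) := by
  unfold rt
  fun_prop

/-- the twist -/
noncomputable def TW {n : ℕ} (g : ℝ → ℝ) (hg : Continuous g) (m : E n) : E n ≃ₜ E n where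
  toFun x := m + rt (g (Q (x - m))) (x - m)
  invFun x := m + rt (-(g (Q (x - m)))) (x - m)
  left_inv x := by
    simp only [add_sub_cancel_left, Q_rt, rt_rt, neg_add_cancel, rt_zero, add_sub_cancel]
  right_inv x := by
    simp only [add_sub_cancel_left, Q_rt, rt_rt, add_neg_cancel, rt_zero, add_sub_cancel]
  continuous_toFun := by
    have h1 : Continuous fun x : E n => x - m := by fun_prop
    exact continuous_const.add (rt_cont (hg.comp (Q_cont.comp h1)) h1)
  continuous_invFun := by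
    have h1 : Continuous fun x : E n => x - m := by fun_prop
    exact continuous_const.add (rt_cont (hg.comp (Q_cont.comp h1)).neg h1)

lemma Q_smooth {n : ℕ} : ContDiff ℝ ((⊤ : ℕ∞) : WithTop ℕ∞) (Q : E n → ℝ) := by
  unfold Q
  fun_prop

/-- coordinates -/
noncomputable def L1 {n : ℕ} (i : Fin n) : E n →L[ℝ] ℝ :=
  (ContinuousLinearMap.proj (R := ℝ) (φ := fun _ : Fin n => ℝ) i).comp
    (ContinuousLinearMap.fst ℝ (Fin n → ℝ) (Fin n → ℝ))

/-- coordinates -/
noncomputable def L2 {n : ℕ} (i : Fin n) : E n →L[ℝ] ℝ :=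
  (ContinuousLinearMap.proj (R := ℝ) (φ := fun _ : Fin n => ℝ) i).comp
    (ContinuousLinearMap.snd ℝ (Fin n → ℝ) (Fin n → ℝ))

@[simp] lemma L1_apply {n : ℕ} (i : Fin n) (p : E n) : L1 i p = p.1 i := rfl

@[simp] lemma L2_apply {n : ℕ} (i : Fin n) (p : E n) : L2 i p = p.2 i := rfl

lemma Q_deriv {n : ℕ} (p : E n) :
    HasFDerivAt (Q : E n → ℝ) (∑ i, ((2 * p.1 i) • L1 i + (2 * p.2 i) • L2 i)) p := by
  unfold Q
  apply HasFDerivAt.fun_sum
  intro i _
  have h1 : HasFDerivAt (fun p : E n => p.1 i) (L1 i) p := (L1 i).hasFDerivAt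
  have h2 : HasFDerivAt (fun p : E n => p.2 i) (L2 i) p := (L2 i).hasFDerivAt
  have h3 := HasFDerivAt.fun_add (HasFDerivAt.pow h1 2) (HasFDerivAt.pow h2 2)
  refine h3.congr_fderiv ?_
  simp

lemma XH_eq {n : ℕ} {h : ℝ → ℝ} (hh : Differentiable ℝ h) (m x : E n) :
    XH (fun y => h (Q (y - m))) x =
      ((2 * deriv h (Q (x - m))) • (x - m).2, (-(2 * deriv h (Q (x - m)))) • (x - m).1) := by
  have h1 : HasFDerivAt (fun y : E n => Q (y - m))
      (∑ i, ((2 * (x - m).1 i) • L1 i + (2 * (x - m).2 i) • L2 i)) x := by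
    have h2 : HasFDerivAt (fun y : E n => y - m) (ContinuousLinearMap.id ℝ (E n)) x :=
      (hasFDerivAt_id x).sub_const m
    have h3 := (Q_deriv (x - m)).comp x h2
    rw [ContinuousLinearMap.comp_id] at h3
    exact h3
  have h4 : HasFDerivAt (fun y : E n => h (Q (y - m)))
      (deriv h (Q (x - m)) • ∑ i, ((2 * (x - m).1 i) • L1 i + (2 * (x - m).2 i) • L2 i)) x :=
    (hh (Q (x - m))).hasDerivAt.comp_hasFDerivAt x h1
  unfold XH
  rw [h4.fderiv]
  refine Prod.ext ?_ ?_
  · funext j
    simp only [_root_.smul_apply, _root_.sum_apply,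
      _root_.add_apply, L1_apply, L2_apply, Pi.zero_apply, smul_eq_mul, mul_zero,
      zero_add, Pi.smul_apply]
    rw [Finset.sum_eq_single j]
    · rw [Pi.single_eq_same]; ring
    · intro i _ hij
      rw [Pi.single_eq_of_ne hij, mul_zero]
    · intro hj; exact absurd (Finset.mem_univ _) hj
  · funext j
    simp only [_root_.smul_apply, _root_.sum_apply,
      _root_.add_apply, L1_apply, L2_apply, Pi.zero_apply, smul_eq_mul, mul_zero,
      add_zero, Pi.smul_apply]
    rw [Finset.sum_eq_single j]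
    · rw [Pi.single_eq_same]; ring
    · intro i _ hij
      rw [Pi.single_eq_of_ne hij, mul_zero]
    · intro hj; exact absurd (Finset.mem_univ _) hj

lemma flow_deriv {n : ℕ} (w : ℝ) (m p : E n) (t : ℝ) :
    HasDerivAt (fun s : ℝ => m + rt (w * s) p)
      (w • (rt (w * t) p).2, (-w) • (rt (w * t) p).1) t := by
  have h0 : HasDerivAt (fun s : ℝ => w * s) w t := by
    simpa using (hasDerivAt_id t).const_mul w
  have hc : HasDerivAt (fun s : ℝ => Real.cos (w * s)) (-Real.sin (w * t) * w) t := h0.cos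
  have hs : HasDerivAt (fun s : ℝ => Real.sin (w * s)) (Real.cos (w * t) * w) t := h0.sin
  have h1 : HasDerivAt (fun s : ℝ => Real.cos (w * s) • p.1 + Real.sin (w * s) • p.2)
      ((-Real.sin (w * t) * w) • p.1 + (Real.cos (w * t) * w) • p.2) t :=
    (hc.smul_const p.1).fun_add (hs.smul_const p.2)
  have h2 : HasDerivAt (fun s : ℝ => (-Real.sin (w * s)) • p.1 + Real.cos (w * s) • p.2)
      ((-(Real.cos (w * t) * w)) • p.1 + (-Real.sin (w * t) * w) • p.2) t :=
    (hs.fun_neg.smul_const p.1).fun_add (hc.smul_const p.2)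
  have h3 := (h1.prodMk h2).const_add m
  refine h3.congr_deriv ?_
  unfold rt
  refine Prod.ext ?_ ?_
  · funext i
    simp only [Pi.add_apply, Pi.smul_apply, smul_eq_mul]
    ring
  · funext i
    simp only [Pi.add_apply, Pi.smul_apply, smul_eq_mul]
    ring

theorem rot (hTRI : S_TRI) : S_ROT := by
  intro n hn r d hr hd hdr
  obtain ⟨htri, -, hsm, -, hcpt, hQ0, -⟩ := hTRI n
  set i0 : Fin n := ⟨0, hn⟩
  set a : E n := (Pi.single i0 d, 0) with ha
  set m : E n := (1 / 2 : ℝ) • a with hm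
  have hQa : Q a = d ^ 2 := by
    unfold Q
    rw [ha, Finset.sum_eq_single i0]
    · simp
    · intro i _ hi
      simp [Pi.single_eq_of_ne hi]
    · intro hi; exact absurd (Finset.mem_univ _) hi
  have hQm : Q m = (d / 2) ^ 2 := by
    rw [hm, hsm, hQa]; ring
  have hQm' : Q (-m) = (d / 2) ^ 2 := by
    have h1 : -m = (-1 : ℝ) • m := by simp
    rw [h1, hsm, hQm]; ring
  -- the radii
  set c : ℝ := r + d / 2 with hc
  set ρ : ℝ := (c + (1 - d / 2)) / 2 with hρ
  have hc0 : 0 < c := by positivity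
  have hcρ : c < ρ := by rw [hρ]; linarith
  have hρ1 : ρ + d / 2 < 1 := by rw [hρ]; linarith
  have hρ0 : 0 < ρ := hc0.trans hcρ
  set q₂ : ℝ := ρ ^ 2 with hq₂
  set q₁ : ℝ := (c ^ 2 + ρ ^ 2) / 2 with hq₁
  have hcc : c ^ 2 < ρ ^ 2 := by nlinarith
  have h1 : c ^ 2 < q₁ := by rw [hq₁]; linarith
  have h2 : q₁ < q₂ := by rw [hq₁, hq₂]; linarith
  have h21 : 0 < q₂ - q₁ := by linarith
  -- the function
  set χ : ℝ → ℝ := fun q => Real.smoothTransition ((q₂ - q) / (q₂ - q₁)) with hχ
  set h : ℝ → ℝ := fun q => Real.pi / 2 * q * χ q with hh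
  have hχs : ContDiff ℝ ((⊤ : ℕ∞) : WithTop ℕ∞) χ := by
    rw [hχ]
    exact Real.smoothTransition.contDiff.comp
      ((contDiff_const.sub contDiff_id).div_const (q₂ - q₁))
  have hhs : ContDiff ℝ ((⊤ : ℕ∞) : WithTop ℕ∞) h := by
    rw [hh]
    exact (contDiff_const.mul contDiff_id).mul hχs
  have hhd : Differentiable ℝ h := hhs.differentiable (by simp)
  have hdc : Continuous (deriv h) := hhs.continuous_deriv (by
    exact_mod_cast le_top)
  have hgc : Continuous (fun q => 2 * deriv h q) := hdc.const_mul 2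
  have hder : ∀ q, q < q₁ → 2 * deriv h q = Real.pi := by
    intro q hq
    have h3 : h =ᶠ[𝓝 q] fun q => Real.pi / 2 * q := by
      filter_upwards [Iio_mem_nhds hq] with y hy
      have h4 : χ y = 1 := by
        rw [hχ]
        apply Real.smoothTransition.one_of_one_le
        rw [le_div_iff₀ h21]
        have : y < q₁ := hy
        linarith
      show Real.pi / 2 * y * χ y = _
      rw [h4, mul_one]
    rw [h3.deriv_eq]
    have h5 : deriv (fun q : ℝ => Real.pi / 2 * q) q = Real.pi / 2 := by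
      simp
    rw [h5]; ring
  refine ⟨TW (fun q => 2 * deriv h q) hgc m, a, ?_, hQa, ?_⟩
  · refine ⟨fun _ y => h (Q (y - m)), ?_, ⟨{x | Q (x - m) ≤ q₂}, ?_, ?_, ?_⟩,
      fun t x => m + rt (2 * deriv h (Q (x - m)) * t) (x - m), ?_, ?_, ?_⟩
    · exact hhs.comp (Q_smooth.comp (contDiff_snd.sub contDiff_const))
    · have h3 : {x : E n | Q (x - m) ≤ q₂} = (fun y => y + m) '' {x : E n | Q x ≤ q₂} := by
        ext x
        constructor
        · intro hx
          exact ⟨x - m, hx, sub_add_cancel x m⟩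
        · rintro ⟨y, hy, rfl⟩
          show Q (y + m - m) ≤ q₂
          rw [add_sub_cancel_right]
          exact hy
      rw [h3]
      exact (hcpt q₂).image (continuous_id.add continuous_const)
    · intro x hx
      have hx' : Q (x - m) ≤ ρ ^ 2 := hx
      have h3 := htri (x - m) m
      rw [sub_add_cancel, hQm, Real.sqrt_sq (by positivity)] at h3
      have h4 : √(Q (x - m)) ≤ ρ := by
        rw [← Real.sqrt_sq hρ0.le]
        exact Real.sqrt_le_sqrt hx'
      have h5 : √(Q x) < 1 := by linarith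
      show Q x < 1
      rwa [Real.sqrt_lt' one_pos, one_pow] at h5
    · intro t x hx
      have hx' : q₂ < Q (x - m) := not_le.1 hx
      show Real.pi / 2 * Q (x - m) * χ (Q (x - m)) = 0
      have h3 : χ (Q (x - m)) = 0 := by
        rw [hχ]
        apply Real.smoothTransition.zero_of_nonpos
        apply div_nonpos_of_nonpos_of_nonneg _ h21.le
        linarith
      rw [h3, mul_zero]
    · intro x
      simp only [mul_zero, rt_zero, add_sub_cancel]
    · intro t x
      rw [XH_eq hhd m]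
      simp only [add_sub_cancel_left, Q_rt]
      exact flow_deriv _ m (x - m) t
    · intro x
      simp only [mul_one]
      rfl
  · intro x hx
    have h3 := htri x (-m)
    rw [← sub_eq_add_neg, hQm', Real.sqrt_sq (by positivity)] at h3
    have h4 : √(Q x) ≤ r := by
      rw [← Real.sqrt_sq hr.le]
      exact Real.sqrt_le_sqrt hx
    have h5 : √(Q (x - m)) ≤ c := by linarith
    have h6 : Q (x - m) ≤ c ^ 2 := by
      rw [← Real.sq_sqrt (hQ0 (x - m))]
      exact pow_le_pow_left₀ (Real.sqrt_nonneg _) h5 2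
    show m + rt (2 * deriv h (Q (x - m))) (x - m) = a - x
    rw [hder _ (h6.trans_lt h1), rt_pi]
    have h7 : m + m = a := by
      rw [hm, ← add_smul]
      norm_num
    rw [← h7]
    abel

end Pool.Agent.Y945.HB
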